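import Pool.Agent.Helper27.VF.Goals

/-!
# Project VF: the induction (packet IND)
-/

set_option autoImplicit false

namespace Pool.Agent.Helper56.VF

open Pool.Agent.Helper27.VF

universe u

theorem tf_of_free {A : Type u} [Group A] {m : ℕ} (e : FreeGroup (Fin m) ≃* A) :
    ∀ (a : A) (n : ℕ), 0 < n → a ^ n = 1 → a = 1 := by
  intro a n hn h
  have h1 : (e.symm a) ^ n = 1 ^ n := by
    rw [← map_pow, h, map_one, one_pow]
  have h2 : e.symm a = 1 := pow_left_injective hn.ne' h1
  rw [← e.apply_symm_apply a, h2, map_one]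

theorem inf_of_stg {A W : Type u} [Group A] [MulAction A W] {G G₀ : SimpleGraph W} {w : W}
    {p : Ultrafilter W} (h : Stg A G G₀ w p) : Infinite A := by
  by_contra hA
  rw [not_infinite_iff_finite] at hA
  obtain ⟨F, hF, hcov⟩ := h.fin
  have hW : (Set.univ : Set W).Finite := by
    refine ((Set.finite_univ (α := A)).image2 (fun a f => a • f) hF).subset ?_
    intro x _
    obtain ⟨a, f, hf, rfl⟩ := hcov x
    exact ⟨a, Set.mem_univ a, f, hf, rfl⟩
  exact h.nonp _ hW Filter.univ_mem

theorem ind (hD : DraStmt.{u}) (hR : RnkStmt.{u}) (hT : TofStmt.{u}) (hO : OrbStmt.{u}) :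
    IndStmt.{u} := by
  intro m
  induction m using Nat.strong_induction_on with
  | _ m ih =>
    intro A W _ _ G G₀ w p he h
    have := inf_of_stg h
    by_cases hcut : ∃ n : ℕ, ∃ c, IsCut G c ∧ (sep c).ncard = n ∧ ∃ a b : A, Dis p c a b
    · classical
      obtain ⟨c, hc, hcard, a, b, hab⟩ := Nat.find_spec hcut
      set k := Nat.find hcut with hk
      have hMn : Mn A G p k := by
        intro c' hc' a' b' hab'
        exact Nat.find_min' hcut ⟨c', hc', rfl, a', b', hab'⟩
      have hSS : (SS A G p k).Nonempty := ⟨c, hc, hcard, a, b, hab⟩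
      have htf : ∀ (a : A) (n : ℕ), 0 < n → a ^ n = 1 → a = 1 := tf_of_free he.some
      have hB : BB A G p k ≠ ⊤ := (hO A W G G₀ w p h k hMn).2.2.1 hSS
      obtain ⟨n, hn, hn'⟩ := hR m A he (BB A G p k) hB (by
        intro M _ _ _ f hf
        exact hD A W G G₀ w p h k hMn htf M f hf)
      obtain ⟨W', _, G', G₀', w', p', hS', hcon⟩ := hT A W G G₀ w p h k hMn htf
      exact hcon (ih n hn (BB A G p k) W' G' G₀' w' p' hn' hS')
    · refine ⟨Set.univ, Set.infinite_univ, ?_⟩
      intro a _ b _ c hc hab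
      exact hcut ⟨_, c, hc, rfl, a, b, hab⟩

end Pool.Agent.Helper56.VF
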